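import Pool.Agent.H30.EE.TargetsG

/-!
Row CH2 of the board EE: from `W ≥ I_d` to `M_d`.
-/

set_option autoImplicit false

namespace Pool.Agent.H86.EE

open MvPolynomial SC Pool.Agent.H27.LV Pool.Agent.H17.VG Pool.Agent.H30.EE

section LinAlg

variable {K V V' : Type} [Field K] [AddCommGroup V] [Module K V] [AddCommGroup V'] [Module K V']

theorem ch2_finMap (W : Submodule K V) [FiniteDimensional K W] (f : V →ₗ[K] V') :
    Module.finrank K (W.map f) + Module.finrank K ↥(W ⊓ LinearMap.ker f) =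
      Module.finrank K W := by
  have h1 := LinearMap.finrank_range_add_finrank_ker (f.domRestrict W)
  rw [LinearMap.range_domRestrict] at h1
  have h2 : Module.finrank K (LinearMap.ker (f.domRestrict W)) =
      Module.finrank K ↥(W ⊓ LinearMap.ker f) := by
    rw [← Submodule.map_comap_subtype, Submodule.finrank_map_subtype_eq]
    rfl
  rw [h2] at h1
  exact h1

end LinAlg

section Step

variable {k K : Type} [Field k] [Field K] [Algebra k K] {n r : ℕ}

theorem ch2_finSd (d : ℕ) : FiniteDimensional K (Sd K n d) := by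
  have h1 : Sd K n d ≤ LinearMap.range (frL K n d) := by
    intro G hG
    have hG' : G.IsHomogeneous d := (mem_homogeneousSubmodule d G).1 hG
    exact ⟨_, frm_coeff hG'⟩
  exact Submodule.finiteDimensional_of_le h1

theorem ch2_resL_apply (z : Fin (r + 1) → Fin (n + 1) → K) (G : MvPolynomial (Fin (n + 1)) K) :
    resL z G = resC z G := rfl

theorem ch2_resC_mul (z : Fin (r + 1) → Fin (n + 1) → K) (G H : MvPolynomial (Fin (n + 1)) K) :
    resC z (G * H) = resC z G * resC z H := by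
  unfold resC
  rw [map_mul]

theorem ch2_mem_Iz (a : ℕ) (z : Fin (r + 1) → Fin (n + 1) → K)
    (G : MvPolynomial (Fin (n + 1)) K) : G ∈ Iz a z ↔ G.IsHomogeneous a ∧ resC z G = 0 := by
  unfold Iz
  rw [Submodule.mem_inf, LinearMap.mem_ker, mem_homogeneousSubmodule]
  rfl

theorem ch2_mem_Md (a : ℕ) (x : Fin (n + 1) → K)
    (G : MvPolynomial (Fin (n + 1)) K) : G ∈ Md a x ↔ G.IsHomogeneous a ∧ aeval x G = 0 := by
  unfold Md
  rw [Submodule.mem_inf, LinearMap.mem_ker, mem_homogeneousSubmodule]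
  rfl

theorem ch2_finMulW (P : MvPolynomial (Fin (n + 1)) K) (hP : P ≠ 0)
    (W : Submodule K (MvPolynomial (Fin (n + 1)) K)) :
    Module.finrank K (mulW P W) = Module.finrank K W := by
  unfold mulW
  have hinj : Function.Injective (LinearMap.mulLeft K P) := by
    intro a b hab
    simp only [LinearMap.mulLeft_apply] at hab
    exact mul_left_cancel₀ hP hab
  exact (LinearEquiv.finrank_eq (Submodule.equivMapOfInjective _ hinj W)).symm

theorem ch2_up_ne {P : MvPolynomial (Fin (n + 1)) k} (hP : P ≠ 0) : up K P ≠ 0 := by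
  unfold up
  intro h
  apply hP
  exact MvPolynomial.map_injective _ (algebraMap k K).injective (by rw [h, map_zero])

theorem ch2_up_homog {P : MvPolynomial (Fin (n + 1)) k} {t : ℕ} (hP : P.IsHomogeneous t) :
    (up K P).IsHomogeneous t := by
  unfold up
  exact hP.map _

/-- one step -/
theorem ch2_step (hRMD : T_RMD) (a t d : ℕ) (hd : a + t = d) (z : Fin (r + 1) → Fin (n + 1) → K)
    (hz : LinearIndependent K z)
    (W : Submodule K (MvPolynomial (Fin (n + 1)) K)) (hW : W ≤ Md d (z 0)) (hI : Iz d z ≤ W)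
    (P : MvPolynomial (Fin (n + 1)) k) (hPt : P.IsHomogeneous t) (hP0 : P ≠ 0)
    (hPr : resC z (up K P) ≠ 0) (s : ℕ)
    (hs : Module.finrank K ↥(W.map (resL z) ⊓ mlt (resC z (up K P))) ≤ s) :
    mulW (up K P) (Md a (z 0)) ≤ Md d (z 0) ∧
    Module.finrank K (mulW (up K P) (Md a (z 0))) = Module.finrank K (Iz a z) + r * a ∧
    Module.finrank K ↥(W ⊓ mulW (up K P) (Md a (z 0))) ≤ Module.finrank K (Iz a z) + s ∧
    (s = 0 → W ⊓ mulW (up K P) (Md a (z 0)) = mulW (up K P) (Iz a z)) := by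
  have hfd : ∀ b, FiniteDimensional K (Sd K n b) := fun b => ch2_finSd b
  have hWS : W ≤ Sd K n d := hW.trans inf_le_left
  have hfW : FiniteDimensional K W := Submodule.finiteDimensional_of_le hWS
  have hPK : up K P ≠ 0 := ch2_up_ne hP0
  have hPKh : (up K P).IsHomogeneous t := ch2_up_homog hPt
  have h1 : mulW (up K P) (Md a (z 0)) ≤ Md d (z 0) := by
    rintro _ ⟨G, hG, rfl⟩
    have hG' := (ch2_mem_Md a (z 0) G).1 hG
    rw [LinearMap.mulLeft_apply, ch2_mem_Md]
    refine ⟨?_, ?_⟩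
    · have := hPKh.mul hG'.1
      rw [← hd, add_comm a t]
      exact this
    · rw [map_mul, hG'.2, mul_zero]
  have hR := hRMD K n r a z hz
  have h2 : Module.finrank K (mulW (up K P) (Md a (z 0))) =
      Module.finrank K (Iz a z) + r * a := by
    rw [ch2_finMulW _ hPK]
    exact hR.2.1
  set X := W ⊓ mulW (up K P) (Md a (z 0)) with hX
  have hfX : FiniteDimensional K X := Submodule.finiteDimensional_of_le (inf_le_left.trans hWS)
  have hmap : X.map (resL z) ≤ W.map (resL z) ⊓ mlt (resC z (up K P)) := by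
    rintro _ ⟨x, hx, rfl⟩
    refine ⟨⟨x, hx.1, rfl⟩, ?_⟩
    obtain ⟨G, hG, hGx⟩ := hx.2
    refine ⟨resC z G, ?_⟩
    rw [LinearMap.mulLeft_apply, ← hGx, LinearMap.mulLeft_apply, ch2_resL_apply, ch2_resC_mul]
  have hfWm : FiniteDimensional K ↥(W.map (resL z)) := inferInstance
  have hfinf : FiniteDimensional K ↥(W.map (resL z) ⊓ mlt (resC z (up K P))) :=
    Submodule.finiteDimensional_of_le inf_le_left
  have hmapr : Module.finrank K (X.map (resL z)) ≤ s :=
    (Submodule.finrank_mono hmap).trans hs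
  have hker : X ⊓ LinearMap.ker (resL z) ≤ mulW (up K P) (Iz a z) := by
    rintro x ⟨hx, hx0⟩
    obtain ⟨G, hG, hGx⟩ := hx.2
    have hG' := (ch2_mem_Md a (z 0) G).1 hG
    refine ⟨G, ?_, hGx⟩
    have h3 : resC z (up K P) * resC z G = 0 := by
      rw [← ch2_resC_mul]
      have h4 : resL z x = 0 := hx0
      rw [← hGx, LinearMap.mulLeft_apply, ch2_resL_apply] at h4
      exact h4
    have h5 : resC z G = 0 := (mul_eq_zero.1 h3).resolve_left hPr
    exact (ch2_mem_Iz a z G).2 ⟨hG'.1, h5⟩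
  have hfI : FiniteDimensional K (Iz a z) :=
    Submodule.finiteDimensional_of_le (inf_le_left : Iz a z ≤ Sd K n a)
  have hfm : FiniteDimensional K (mulW (up K P) (Iz a z)) := by
    unfold mulW
    infer_instance
  have hkerr : Module.finrank K ↥(X ⊓ LinearMap.ker (resL z)) ≤ Module.finrank K (Iz a z) :=
    (Submodule.finrank_mono hker).trans (ch2_finMulW _ hPK _).le
  have h3 : Module.finrank K X ≤ Module.finrank K (Iz a z) + s := by
    have := ch2_finMap X (resL z)
    omega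
  refine ⟨h1, h2, h3, fun hs0 => ?_⟩
  have h4 : Module.finrank K (X.map (resL z)) = 0 := by omega
  have h5 : X.map (resL z) = ⊥ := Submodule.finrank_eq_zero.1 h4
  have h6 : X ≤ LinearMap.ker (resL z) := by
    intro x hx
    have : resL z x ∈ X.map (resL z) := ⟨x, hx, rfl⟩
    rw [h5, Submodule.mem_bot] at this
    exact this
  refine le_antisymm (fun x hx => hker ⟨hx, h6 hx⟩) ?_
  rintro _ ⟨G, hG, rfl⟩
  have hG' := (ch2_mem_Iz a z G).1 hG
  refine ⟨hI ?_, ⟨G, hR.2.2 hG, rfl⟩⟩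
  rw [LinearMap.mulLeft_apply, ch2_mem_Iz]
  refine ⟨?_, ?_⟩
  · have := hPKh.mul hG'.1
    rw [← hd, add_comm a t]
    exact this
  · rw [ch2_resC_mul, hG'.2, mul_zero]

/-- the dimension of the restriction -/
theorem ch2_finY (hRMD : T_RMD) (d : ℕ) (z : Fin (r + 1) → Fin (n + 1) → K)
    (hz : LinearIndependent K z)
    (W : Submodule K (MvPolynomial (Fin (n + 1)) K)) (hW : W ≤ Md d (z 0)) (hI : Iz d z ≤ W)
    (c : ℕ) (hc : Module.finrank K W + c = Module.finrank K (Md d (z 0))) :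
    Module.finrank K (W.map (resL z)) + c = r * d := by
  have hfd : FiniteDimensional K (Sd K n d) := ch2_finSd d
  have hWS : W ≤ Sd K n d := hW.trans inf_le_left
  have hfW : FiniteDimensional K W := Submodule.finiteDimensional_of_le hWS
  have h1 := ch2_finMap W (resL z)
  have h2 : W ⊓ LinearMap.ker (resL z) = Iz d z := by
    apply le_antisymm
    · exact inf_le_inf_right _ hWS
    · exact le_inf hI inf_le_right
  rw [h2] at h1
  have h3 := (hRMD K n r d z hz).2.1
  omega

end Step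

/-- [CH2] -/
theorem pf_CH2 (_hHG : T_HG) (hMUL : T_MUL) (hDSP : T_DSP) (hDAI : T_DAI) (_hQDM : T_QDM)
    (hGPT : T_GPT) (hRMD : T_RMD) : T_CH2 := by
  intro k K _ _ _ _ _ _ htr n r d z hr hd1 hz W hW hI m' hm'
  have hfSd : FiniteDimensional K (Sd K n d) := ch2_finSd d
  have hWS : W ≤ Sd K n d := hW.trans inf_le_left
  have hfW : FiniteDimensional K W := Submodule.finiteDimensional_of_le hWS
  have hfMd : FiniteDimensional K (Md d (z 0)) :=
    Submodule.finiteDimensional_of_le (inf_le_left : Md d (z 0) ≤ Sd K n d)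
  have hz0 : z 0 ≠ 0 := hz.ne_zero 0
  have hY := ch2_finY hRMD d z hz W hW hI m' hm'
  obtain ⟨a1, ha1⟩ : ∃ a1, a1 = m' / r := ⟨_, rfl⟩
  obtain ⟨c, hc⟩ : ∃ c, c = m' % r := ⟨_, rfl⟩
  have hdiv : m' = r * a1 + c := by
    rw [ha1, hc]
    exact (Nat.div_add_mod m' r).symm
  have hcr : c < r := by
    rw [hc]
    exact Nat.mod_lt _ (by omega)
  have ha1d : a1 ≤ d := by
    by_contra hlt
    have h1 : d + 1 ≤ a1 := by omega
    have h2 : r * (d + 1) ≤ r * a1 := Nat.mul_le_mul_left r h1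
    have h3 : r * (d + 1) = r * d + r := by ring
    omega
  obtain ⟨t, ht⟩ : ∃ t, a1 + t = d := ⟨d - a1, by omega⟩
  -- first step
  obtain ⟨P, hPt, hP0, hPr, hPf⟩ := hGPT k K n r t z hz (W.map (resL z))
  have hPf0 : Module.finrank K ↥(W.map (resL z) ⊓ mlt (resC z (up K P))) ≤ 0 := by
    refine hPf.trans ?_
    have h1 : r * d = r * a1 + r * t := by rw [← ht]; ring
    omega
  obtain ⟨hV1, hV2, _, hV4⟩ := ch2_step hRMD a1 t d ht z hz W hW hI P hPt hP0 hPr 0 hPf0
  have hV4' := hV4 rfl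
  obtain ⟨V, hVdef⟩ : ∃ V, V = mulW (up K P) (Md a1 (z 0)) := ⟨_, rfl⟩
  rw [← hVdef] at hV1 hV2 hV4'
  have hfI1 : FiniteDimensional K (Iz a1 z) := by
    have := ch2_finSd (K := K) (n := n) a1
    exact Submodule.finiteDimensional_of_le (inf_le_left : Iz a1 z ≤ Sd K n a1)
  have hVS : V ≤ Sd K n d := hV1.trans inf_le_left
  have hfV : FiniteDimensional K V := Submodule.finiteDimensional_of_le hVS
  have hsup := (hDSP k K htr n d).2.2.2.1 W hWS V hVS
  have hdV : dS k n d V = -(a1 * hgt k (z 0)) := by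
    rw [hVdef, ← ht, hMUL k K htr n a1 t P hP0 hPt (Md a1 (z 0)) inf_le_left]
    exact ((hDSP k K htr n a1).2.2.2.2.2 (z 0) hz0).1
  have hdI : dS k n d (W ⊓ V) = -Da k a1 z := by
    rw [hV4', ← ht, hMUL k K htr n a1 t P hP0 hPt (Iz a1 z) inf_le_left]
    exact (hDAI k K htr r n a1 z hz).1
  have hfr : Module.finrank K ↥(W ⊔ V) + c = Module.finrank K (Md d (z 0)) := by
    have h1 := Submodule.finrank_sup_add_finrank_inf_eq W V
    have h2 : Module.finrank K ↥(W ⊓ V) = Module.finrank K (Iz a1 z) := by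
      rw [hV4']
      exact ch2_finMulW _ (ch2_up_ne hP0) _
    rw [h2, hV2] at h1
    omega
  have hW1 : W ⊔ V ≤ Md d (z 0) := sup_le hW hV1
  rcases Nat.eq_zero_or_pos c with hc0 | hcpos
  · -- r divides m'
    have h1 : W ⊔ V = Md d (z 0) := by
      apply Submodule.eq_of_le_of_finrank_eq hW1
      omega
    have h2 : (m' + r - 1) / r = a1 := by
      have h3 : m' + r - 1 = r * a1 + (r - 1) := by omega
      rw [h3, Nat.mul_add_div (by omega)]
      have : (r - 1) / r = 0 := Nat.div_eq_of_lt (by omega)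
      omega
    rw [h2, ← ha1]
    rw [h1, hdV, hdI] at hsup
    linarith
  · -- second step
    have h2 : (m' + r - 1) / r = a1 + 1 := by
      have h3 : m' + r - 1 = r * (a1 + 1) + (c - 1) := by
        have h4 : r * (a1 + 1) = r * a1 + r := by ring
        omega
      rw [h3, Nat.mul_add_div (by omega)]
      have : (c - 1) / r = 0 := Nat.div_eq_of_lt (by omega)
      omega
    have hIW1 : Iz d z ≤ W ⊔ V := hI.trans le_sup_left
    have hY1 := ch2_finY hRMD d z hz (W ⊔ V) hW1 hIW1 c hfr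
    have hW1S : W ⊔ V ≤ Sd K n d := hW1.trans inf_le_left
    have hfW1 : FiniteDimensional K ↥(W ⊔ V) := Submodule.finiteDimensional_of_le hW1S
    obtain ⟨t2, ht2⟩ : ∃ t2, 1 + t2 = d := ⟨d - 1, by omega⟩
    obtain ⟨Q, hQt, hQ0, hQr, hQf⟩ := hGPT k K n r t2 z hz ((W ⊔ V).map (resL z))
    have hQf' : Module.finrank K ↥((W ⊔ V).map (resL z) ⊓ mlt (resC z (up K Q))) ≤ r - c := by
      refine hQf.trans ?_
      have h1 : r * d = r + r * t2 := by rw [← ht2]; ring
      omega
    obtain ⟨hU1, hU2, hU3, _⟩ := ch2_step hRMD 1 t2 d ht2 z hz (W ⊔ V) hW1 hIW1 Q hQt hQ0 hQr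
      (r - c) hQf'
    obtain ⟨U, hUdef⟩ : ∃ U, U = mulW (up K Q) (Md 1 (z 0)) := ⟨_, rfl⟩
    rw [← hUdef] at hU1 hU2 hU3
    have hUS : U ≤ Sd K n d := hU1.trans inf_le_left
    have hfU : FiniteDimensional K U := Submodule.finiteDimensional_of_le hUS
    have hW2 : (W ⊔ V) ⊔ U ≤ Md d (z 0) := sup_le hW1 hU1
    have hfin2 := Submodule.finrank_sup_add_finrank_inf_eq (W ⊔ V) U
    have h1 : (W ⊔ V) ⊔ U = Md d (z 0) := by
      apply Submodule.eq_of_le_of_finrank_le hW2
      omega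
    have hsup2 := (hDSP k K htr n d).2.2.2.1 (W ⊔ V) hW1S U hUS
    have hdU : dS k n d U = -((1 : ℕ) * hgt k (z 0)) := by
      rw [hUdef, ← ht2, hMUL k K htr n 1 t2 Q hQ0 hQt (Md 1 (z 0)) inf_le_left]
      exact ((hDSP k K htr n 1).2.2.2.2.2 (z 0) hz0).1
    have hneg := (hDSP k K htr n d).2.2.1 ((W ⊔ V) ⊓ U)
    rw [h1, hdU] at hsup2
    rw [hdV, hdI] at hsup
    rw [h2, ← ha1]
    push_cast at hsup2 ⊢
    linarith

end Pool.Agent.H86.EE
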