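import Pool.Agent.H30.EE.TargetsH

/-!
Row SBS of the board EE: substitution of independent constant linear forms.
-/

set_option autoImplicit false

namespace Pool.Agent.H86.EE

open MvPolynomial SC Pool.Agent.H27.LV Pool.Agent.H17.VG Pool.Agent.H30.EE

section General

variable {k K : Type} [Field k] [Field K] [Algebra k K] {m n : ℕ}

theorem lin_homog (x : Fin (n + 1) → K) : (lin x).IsHomogeneous 1 := by
  unfold lin
  refine IsHomogeneous.sum _ _ _ fun j _ => ?_
  have h := (isHomogeneous_C (Fin (n + 1)) (x j)).mul (isHomogeneous_X K j)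
  simpa using h

theorem sbs_X (l : Fin (m + 1) → Fin (n + 1) → K) (i : Fin (m + 1)) :
    sbs l (X i) = lin (l i) := by
  unfold sbs
  rw [aeval_X]

theorem mono_eq (f : Fin (m + 1) → ℕ) : mono K f = ∏ i, (X i : MvPolynomial (Fin (m + 1)) K) ^ f i := by
  unfold mono fs
  rw [monomial_eq, C_1, one_mul, Finsupp.prod_fintype _ _ (fun i => pow_zero _)]
  rfl

theorem sbs_mono (l : Fin (m + 1) → Fin (n + 1) → K) (f : Fin (m + 1) → ℕ) :
    sbs l (mono K f) = ∏ i, lin (l i) ^ f i := by
  rw [mono_eq, map_prod]
  refine Finset.prod_congr rfl fun i _ => ?_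
  rw [map_pow, sbs_X]

theorem sbs_mono_homog (l : Fin (m + 1) → Fin (n + 1) → K) {a : ℕ} (f : Mon (m + 1) a) :
    (sbs l (mono K f.1)).IsHomogeneous a := by
  rw [sbs_mono]
  have h := IsHomogeneous.prod Finset.univ (fun i => lin (l i) ^ f.1 i) (fun i => f.1 i)
    (fun i _ => by
      have h1 := (lin_homog (l i)).pow (f.1 i)
      simpa using h1)
  rw [f.2] at h
  exact h

theorem up_lin (x : Fin (n + 1) → k) : up K (lin x) = lin (ul K x) := by
  unfold up lin ul
  rw [map_sum]
  refine Finset.sum_congr rfl fun j _ => ?_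
  rw [map_mul, map_C, map_X]

theorem up_sbs_mono (l : Fin (m + 1) → Fin (n + 1) → k) (f : Fin (m + 1) → ℕ) :
    up K (sbs l (mono k f)) = sbs (fun i => ul K (l i)) (mono K f) := by
  rw [sbs_mono, sbs_mono]
  have : up K (∏ i, lin (l i) ^ f i) = ∏ i, up K (lin (l i)) ^ f i := by
    unfold up
    rw [map_prod]
    refine Finset.prod_congr rfl fun i _ => ?_
    rw [map_pow]
  rw [this]
  refine Finset.prod_congr rfl fun i _ => ?_
  rw [up_lin]

/-- the matrix of the substitution -/
noncomputable def mat (l : Fin (m + 1) → Fin (n + 1) → k) (a : ℕ) :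
    Matrix (Mon (n + 1) a) (Mon (m + 1) a) k :=
  Matrix.of fun M P => coeff (fs M.1) (sbs l (mono k P.1))

theorem sbs_frm (l : Fin (m + 1) → Fin (n + 1) → K) {a : ℕ} (c : Mon (m + 1) a → K) :
    sbs l (frm c) = ∑ P, c P • sbs l (mono K P.1) := by
  unfold frm
  rw [map_sum]
  refine Finset.sum_congr rfl fun P _ => ?_
  rw [map_mul, ← algebraMap_eq, AlgHom.commutes, ← Algebra.smul_def]

theorem frm_mulVec (l : Fin (m + 1) → Fin (n + 1) → k) {a : ℕ} (c : Mon (m + 1) a → K) :
    frm (Matrix.mulVec ((mat l a).map (algebraMap k K)) c) =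
      sbs (fun i => ul K (l i)) (frm c) := by
  rw [sbs_frm]
  have h1 : ∀ P : Mon (m + 1) a, sbs (fun i => ul K (l i)) (mono K P.1) =
      frL K n a (fun M => (mat l a).map (algebraMap k K) M P) := by
    intro P
    have h2 : (sbs (fun i => ul K (l i)) (mono K P.1)).IsHomogeneous a := sbs_mono_homog _ P
    rw [← frm_coeff h2]
    change _ = frm _
    congr 1
    funext M
    rw [← up_sbs_mono]
    unfold up
    rw [coeff_map]
    rfl
  have h3 : ∑ P, c P • sbs (fun i => ul K (l i)) (mono K P.1) =
      frL K n a (∑ P, c P • (fun M => (mat l a).map (algebraMap k K) M P)) := by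
    rw [map_sum]
    refine Finset.sum_congr rfl fun P _ => ?_
    rw [map_smul, h1 P]
  rw [h3]
  change frm _ = frm _
  congr 1
  funext M
  rw [Matrix.mulVec, dotProduct, Finset.sum_apply]
  refine Finset.sum_congr rfl fun P _ => ?_
  rw [Pi.smul_apply, smul_eq_mul, mul_comm]

theorem frL_inj {a : ℕ} : Function.Injective (frL K n a) := by
  rw [← LinearMap.ker_eq_bot, LinearMap.ker_eq_bot']
  intro t ht
  exact frm_zero ht

theorem sbs_inj (l : Fin (m + 1) → Fin (n + 1) → k) (hl : LinearIndependent k l) :
    Function.Injective (sbs l) := by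
  have hinj : LinearMap.ker (Fintype.linearCombination k l) = ⊥ := by
    rw [LinearMap.ker_eq_bot]
    exact hl.fintypeLinearCombination_injective
  obtain ⟨g, hg⟩ := LinearMap.exists_leftInverse_of_injective _ hinj
  have hgl : ∀ i, g (l i) = Pi.single i 1 := by
    intro i
    have h1 := congrArg (fun f => f (Pi.single i 1)) hg
    simp only [LinearMap.comp_apply, LinearMap.id_apply] at h1
    rw [Fintype.linearCombination_apply] at h1
    rw [Finset.sum_eq_single i (by
      intro b _ hb
      rw [Pi.single_eq_of_ne hb, zero_smul]) (by simp), Pi.single_eq_same, one_smul] at h1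
    exact h1
  set r : Fin (n + 1) → MvPolynomial (Fin (m + 1)) k := fun j =>
    lin (g (Pi.single j 1)) with hr
  have hlinadd : ∀ (c : Fin (n + 1) → k), ∑ j, C (c j) * r j = lin (g c) := by
    intro c
    have h1 : c = ∑ j, c j • (Pi.single j (1 : k) : Fin (n + 1) → k) := by
      funext i
      rw [Finset.sum_apply]
      simp [Pi.single_apply]
    conv_rhs => rw [h1, map_sum]
    rw [hr]
    unfold lin
    simp only [Finset.sum_apply, map_smul, Pi.smul_apply, smul_eq_mul]
    simp_rw [map_sum, Finset.sum_mul, Finset.mul_sum, map_mul]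
    rw [Finset.sum_comm]
    refine Finset.sum_congr rfl fun i _ => Finset.sum_congr rfl fun j _ => ?_
    ring
  have hleft : ∀ p : MvPolynomial (Fin (m + 1)) k, aeval r (sbs l p) = p := by
    intro p
    have h1 : (aeval r).comp (sbs l) = AlgHom.id k (MvPolynomial (Fin (m + 1)) k) := by
      refine algHom_ext fun i => ?_
      rw [AlgHom.comp_apply, sbs_X, AlgHom.id_apply]
      unfold lin
      rw [map_sum]
      have h2 : ∀ j, aeval r (C (l i j) * X j : MvPolynomial (Fin (n + 1)) k) =
          C (l i j) * r j := by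
        intro j
        rw [map_mul, aeval_X, ← algebraMap_eq, AlgHom.commutes]
        rfl
      rw [Finset.sum_congr rfl fun j _ => h2 j, hlinadd (l i), hgl i]
      unfold lin
      rw [Finset.sum_eq_single i (by
        intro b _ hb
        rw [Pi.single_eq_of_ne hb, C_0, zero_mul]) (by simp), Pi.single_eq_same, C_1, one_mul]
    have h3 := congrArg (fun f => f p) h1
    exact h3
  exact Function.LeftInverse.injective hleft

end General

/-- [SBS] -/
theorem pf_SBS (hCST : T_CST) : T_SBS := by
  intro k K _ _ _ _ _ _ htr m n a l hl W hW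
  unfold dS
  have hA : ∀ c : Mon (m + 1) a → k, Matrix.mulVec (mat l a) c = 0 → c = 0 := by
    intro c hc
    have h1 := frm_mulVec (K := k) l c
    have h2 : (mat l a).map (algebraMap k k) = mat l a := by
      ext i j
      rfl
    rw [h2, hc] at h1
    have h3 : (frm (0 : Mon (n + 1) a → k)) = 0 := by
      unfold frm
      refine Finset.sum_eq_zero fun M _ => ?_
      rw [Pi.zero_apply, C_0, zero_mul]
    rw [h3] at h1
    have h4 : (fun i => ul k (l i)) = l := by
      funext i j
      rfl
    rw [h4] at h1
    have h5 : frm c = 0 := by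
      apply sbs_inj l hl
      rw [← h1, map_zero]
    exact frm_zero h5
  have key : (W.map (sbs fun i => ul K (l i)).toLinearMap).comap (frL K n a) =
      (W.comap (frL K m a)).map (Matrix.mulVecLin ((mat l a).map (algebraMap k K))) := by
    ext y
    rw [Submodule.mem_comap, Submodule.mem_map, Submodule.mem_map]
    constructor
    · rintro ⟨w, hw, hwy⟩
      have hwh : w.IsHomogeneous a := by
        have := hW hw
        exact (mem_homogeneousSubmodule a w).1 this
      refine ⟨fun f : Mon (m + 1) a => coeff (fs f.1) w, ?_, ?_⟩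
      · rw [Submodule.mem_comap]
        change frm _ ∈ W
        rw [frm_coeff hwh]
        exact hw
      · apply frL_inj (K := K)
        rw [← hwy, Matrix.mulVecLin_apply]
        change frm _ = _
        rw [frm_mulVec, frm_coeff hwh]
        rfl
    · rintro ⟨c, hc, hcy⟩
      refine ⟨frm c, hc, ?_⟩
      rw [← hcy, Matrix.mulVecLin_apply]
      change _ = frm _
      rw [frm_mulVec]
      rfl
  rw [key]
  exact hCST k K htr (Mon (m + 1) a) (Mon (n + 1) a) (mat l a) hA (W.comap (frL K m a))

end Pool.Agent.H86.EE
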