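import Pool.Agent.H30.EE.TargetsU

/-!
Row UPE of the board EE: a good primitive element.
-/

set_option autoImplicit false

namespace Pool.Agent.H86.EE

open MvPolynomial SC Pool.Agent.H27.LV Pool.Agent.H17.VG Pool.Agent.H17.BO Pool.Agent.H30.EE

lemma upe_fin_of_transc {k K : Type} [Field k] [Field K] [Algebra k K]
    [Algebra.EssFiniteType k K] (htr : Algebra.trdeg k K = 1) {t : K}
    (ht : Transcendental k t) : FiniteDimensional (IntermediateField.adjoin k {t}) K := by
  have h1 : AlgebraicIndependent k (fun _ : Unit => t) := by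
    rw [algebraicIndependent_unique_type_iff]
    exact ht
  have h2 : IsTranscendenceBasis k (fun _ : Unit => t) :=
    h1.isTranscendenceBasis_of_trdeg_le_of_finite (by rw [htr]; simp)
  have h3 := h2.isAlgebraic_field
  rw [Set.range_const] at h3
  have h4 : Algebra.EssFiniteType (IntermediateField.adjoin k {t}) K :=
    Algebra.EssFiniteType.of_comp k _ K
  obtain ⟨s, hs⟩ := IntermediateField.fg_top (IntermediateField.adjoin k {t}) K
  have hfd : FiniteDimensional (IntermediateField.adjoin k {t})
      (IntermediateField.adjoin (IntermediateField.adjoin k {t}) (s : Set K)) :=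
    IntermediateField.finiteDimensional_adjoin fun x _ => (h3.isAlgebraic x).isIntegral
  rw [hs] at hfd
  exact Module.Finite.equiv (IntermediateField.topEquiv (F := IntermediateField.adjoin k {t})
    (E := K)).toLinearEquiv

lemma upe_transc {k K : Type} [Field k] [IsAlgClosed k] [Field K] [Algebra k K] {u : K}
    (hu : u ∉ Set.range (algebraMap k K)) : Transcendental k u := by
  intro halg
  apply hu
  have hint : IsIntegral k u := halg.isIntegral
  have h1 : (minpoly k u).degree = 1 :=
    IsAlgClosed.degree_eq_one_of_irreducible k (minpoly.irreducible hint)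
  exact minpoly.mem_range_of_degree_eq_one k u h1

/-- [UPE] -/
theorem pf_UPE (hUGC : T_UGC) : T_UPE := by
  intro k E _ _ _ _ _ _ htr m w u hu
  obtain ⟨⟨c₀, hc₀⟩, hcof⟩ := hUGC k E htr m w
  have hfd : FiniteDimensional (IntermediateField.adjoin k {u}) E :=
    upe_fin_of_transc htr (upe_transc hu)
  set F : IntermediateField k E := IntermediateField.adjoin k {u} with hF
  have hcharF : CharZero F := charZero_of_injective_algebraMap (algebraMap k F).injective
  have hfin : Finite (IntermediateField F E) := by
    apply (Field.exists_primitive_element_iff_finite_intermediateField F E).1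
    exact ⟨inferInstance, Field.exists_primitive_element F E⟩
  -- the fields
  set s : (Fin (m + 1) → ℤ) → E := fun c => ∑ i, (c i : E) * w i with hs
  set L : (Fin (m + 1) → ℤ) → IntermediateField F E := fun c =>
    IntermediateField.adjoin F {s c} with hL
  have hbdd : ∀ c, Module.finrank F (L c) ≤ Module.finrank F E := fun c =>
    Submodule.finrank_le (L c).toSubmodule
  obtain ⟨c, hc, hmax⟩ : ∃ c, GoodC k w c ∧ ∀ c', GoodC k w c' →
      Module.finrank F (L c') ≤ Module.finrank F (L c) := by
    classical
    set S : Set ℕ := {n | ∃ c, GoodC k w c ∧ Module.finrank F (L c) = n} with hS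
    have hSne : S.Nonempty := ⟨_, c₀, hc₀, rfl⟩
    have hSb : BddAbove S := by
      refine ⟨Module.finrank F E, ?_⟩
      rintro n ⟨c, _, rfl⟩
      exact hbdd c
    obtain ⟨c, hc, hcn⟩ := Nat.sSup_mem hSne hSb
    refine ⟨c, hc, fun c' hc' => ?_⟩
    rw [hcn]
    exact le_csSup hSb ⟨c', hc', rfl⟩
  refine ⟨c, hc, fun i => ?_⟩
  set e : ℤ → (Fin (m + 1) → ℤ) := fun j l => c l + if l = i then j else 0 with he
  have hse : ∀ j, s (e j) = s c + (j : E) * w i := by
    intro j
    rw [hs]
    simp only [he]
    have h1 : ∀ l, (((c l + if l = i then j else 0 : ℤ)) : E) * w l =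
        (c l : E) * w l + if l = i then (j : E) * w i else 0 := by
      intro l
      by_cases hl : l = i
      · subst hl
        rw [if_pos rfl, if_pos rfl]
        push_cast
        ring
      · rw [if_neg hl, if_neg hl]
        simp
    rw [Finset.sum_congr rfl fun l _ => h1 l, Finset.sum_add_distrib]
    congr 1
    simp
  have hinf : {j : ℤ | GoodC k w (e j)}.Infinite := by
    have h1 := hcof c hc i
    have h2 : {j : ℤ | GoodC k w (e j)} = {j : ℤ | ¬ GoodC k w (e j)}ᶜ := by
      ext j
      simp
    rw [h2]
    exact h1.infinite_compl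
  obtain ⟨j, hj, j', hj', hjj, hLL⟩ := hinf.exists_ne_map_eq_of_mapsTo
    (f := fun j => L (e j)) (t := Set.univ) (fun _ _ => Set.mem_univ _) Set.finite_univ
  have hLL' : L (e j) = L (e j') := hLL
  have hm1 : s (e j) ∈ L (e j) := IntermediateField.subset_adjoin F _ (Set.mem_singleton _)
  have hm2 : s (e j') ∈ L (e j) := by
    rw [hLL']
    exact IntermediateField.subset_adjoin F _ (Set.mem_singleton _)
  have hint : ∀ a : ℤ, (a : E) ∈ L (e j) := fun a => intCast_mem _ a
  have hchE : CharZero E := charZero_of_injective_algebraMap (algebraMap k E).injective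
  have hwi : w i ∈ L (e j) := by
    have h1 : s (e j) - s (e j') ∈ L (e j) := sub_mem hm1 hm2
    have h2 : s (e j) - s (e j') = ((j - j' : ℤ) : E) * w i := by
      rw [hse, hse]
      push_cast
      ring
    have h3 : ((j - j' : ℤ) : E) ≠ 0 := by
      rw [Ne, Int.cast_eq_zero]
      omega
    have h4 : w i = ((j - j' : ℤ) : E)⁻¹ * (s (e j) - s (e j')) := by
      rw [h2]
      field_simp
    rw [h4]
    exact mul_mem (inv_mem (hint _)) h1
  have hsc : s c ∈ L (e j) := by
    have h1 : s c = s (e j) - (j : E) * w i := by
      rw [hse]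
      ring
    rw [h1]
    exact sub_mem hm1 (mul_mem (hint _) hwi)
  have hle : L c ≤ L (e j) := by
    rw [hL]
    simp only
    rw [IntermediateField.adjoin_le_iff, Set.singleton_subset_iff]
    exact hsc
  have heq : L c = L (e j) := by
    apply IntermediateField.eq_of_le_of_finrank_le hle
    exact hmax _ hj
  have hfinal : w i ∈ L c := by
    rw [heq]
    exact hwi
  have h5 : (IntermediateField.adjoin F {s c}).restrictScalars k =
      IntermediateField.adjoin k ({u} ∪ {s c}) := by
    rw [hF]
    exact IntermediateField.adjoin_adjoin_left k {u} {s c}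
  have h6 : w i ∈ (IntermediateField.adjoin F {s c}).restrictScalars k := hfinal
  rw [h5] at h6
  exact h6

end Pool.Agent.H86.EE
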